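import Mathlib

/-!
# MP_a64928_ag, Q1: grid-free hypersurfaces that need unbounded degree

For `s = 2`, `t = 3` and every `d` the hypersurface
`y₂ + x₁ (y₁² + y₂^{2(d+1)}) + x₂ = 0` of `ℂ² × ℂ²` is irreducible and `(2,3)`-grid-free, but it is
not the zero set of `F ∘ (id × σ)` for any polynomial automorphism `σ` and any `F` of degree at
most `d` in `y`.
-/

set_option autoImplicit false

namespace Pool.Agent.Results.MP_a64928_ag.NoBoundedDegreeForm

open MvPolynomial

/-- The polynomial ring `ℂ[x₁, …, x_s][y₁, …, y_s]`; the total degree of an element is its degree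
in `y`. -/
abbrev Poly (s : ℕ) : Type := MvPolynomial (Fin s) (MvPolynomial (Fin s) ℂ)

/-- The value `F(u, v)`. -/
noncomputable def ev {s : ℕ} (F : Poly s) (u v : Fin s → ℂ) : ℂ :=
  MvPolynomial.eval v (MvPolynomial.map (MvPolynomial.eval u) F)

/-- `H` is an affine hypersurface: the zero set of a nonconstant polynomial. -/
def IsHypersurface {s : ℕ} (H : Set ((Fin s → ℂ) × (Fin s → ℂ))) : Prop :=
  ∃ F : Poly s, (∀ c : ℂ, F ≠ C (C c)) ∧ H = {p | ev F p.1 p.2 = 0}

/-- The algebraic set `H` is irreducible: it is nonempty, and if it is contained in the union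
of the zero sets of two polynomials then it is contained in one of the two. -/
def IsIrred {s : ℕ} (H : Set ((Fin s → ℂ) × (Fin s → ℂ))) : Prop :=
  H.Nonempty ∧ ∀ A B : Poly s, (∀ p ∈ H, ev A p.1 p.2 = 0 ∨ ev B p.1 p.2 = 0) →
    (∀ p ∈ H, ev A p.1 p.2 = 0) ∨ (∀ p ∈ H, ev B p.1 p.2 = 0)

/-- `H` contains no `(s,t)`-grid. -/
def GridFree {P₁ P₂ : Type} (s t : ℕ) (H : Set (P₁ × P₂)) : Prop :=
  ¬ ∃ (S : Finset P₁) (T : Finset P₂), S.card = s ∧ T.card = t ∧
    ∀ u ∈ S, ∀ v ∈ T, (u, v) ∈ H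

/-- `f` is a polynomial map `ℂ^s → ℂ^s`. -/
def IsPolyMap {s : ℕ} (f : (Fin s → ℂ) → (Fin s → ℂ)) : Prop :=
  ∃ P : Fin s → MvPolynomial (Fin s) ℂ, ∀ v i, f v i = MvPolynomial.eval v (P i)

/-- `H = {F ∘ (id × σ) = 0}` for a polynomial automorphism `σ` of `𝔸^s` and some `F` of degree at
most `d` in `y`. -/
def HasForm {s : ℕ} (d : ℕ) (H : Set ((Fin s → ℂ) × (Fin s → ℂ))) : Prop :=
  ∃ (σ : Equiv.Perm (Fin s → ℂ)) (F : Poly s), IsPolyMap σ ∧ IsPolyMap σ.symm ∧
    F.totalDegree ≤ d ∧ H = {p | ev F p.1 (σ p.2) = 0}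

/-- ring of polynomials in two variables -/
abbrev A2 : Type := MvPolynomial (Fin 2) ℂ

/-- substitution `x ↦ (a, b)`, `y ↦ y` with `a, b` polynomials in `y` -/
noncomputable def Θ (a b : A2) : Poly 2 →+* A2 :=
  MvPolynomial.eval₂Hom (MvPolynomial.aeval ![a, b] : A2 →ₐ[ℂ] A2).toRingHom X

theorem eval_Θ (a b : A2) (F : Poly 2) (v : Fin 2 → ℂ) :
    eval v (Θ a b F) = ev F ![eval v a, eval v b] v := by
  have h : (eval v).comp (Θ a b) =
      (eval v).comp (MvPolynomial.map (eval ![eval v a, eval v b])) := by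
    apply MvPolynomial.ringHom_ext
    · intro p
      have h2 : ((eval v).comp (MvPolynomial.aeval ![a, b] : A2 →ₐ[ℂ] A2).toRingHom) =
          eval ![eval v a, eval v b] := by
        apply MvPolynomial.ringHom_ext
        · intro c; simp
        · intro i; fin_cases i <;> simp
      have h3 := DFunLike.congr_fun h2 p
      simpa [Θ] using h3
    · intro i; simp [Θ]
  exact DFunLike.congr_fun h F

theorem Θ_const (a c : ℂ) (F : Poly 2) : Θ (C a) (C c) F = MvPolynomial.map (eval ![a, c]) F := by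
  apply MvPolynomial.funext
  intro v
  rw [eval_Θ]
  simp [ev]

theorem dvd_Θ (a b b' : A2) (F : Poly 2) : (b - b') ∣ Θ a b F - Θ a b' F := by
  rw [← Ideal.mem_span_singleton, ← Ideal.Quotient.eq]
  have hb : Ideal.Quotient.mk (Ideal.span {b - b'}) b = Ideal.Quotient.mk _ b' := by
    rw [Ideal.Quotient.eq]; exact Ideal.mem_span_singleton_self _
  have h : (Ideal.Quotient.mk (Ideal.span {b - b'})).comp (Θ a b) =
      (Ideal.Quotient.mk (Ideal.span {b - b'})).comp (Θ a b') := by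
    apply MvPolynomial.ringHom_ext
    · intro p
      have h2 : ((Ideal.Quotient.mk (Ideal.span {b - b'})).comp
          (MvPolynomial.aeval ![a, b] : A2 →ₐ[ℂ] A2).toRingHom) =
          ((Ideal.Quotient.mk (Ideal.span {b - b'})).comp
          (MvPolynomial.aeval ![a, b'] : A2 →ₐ[ℂ] A2).toRingHom) := by
        apply MvPolynomial.ringHom_ext
        · intro c; simp
        · intro i; fin_cases i
          · simp
          · simpa using hb
      have h3 := DFunLike.congr_fun h2 p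
      simpa [Θ] using h3
    · intro i; simp [Θ]
  exact DFunLike.congr_fun h F

/-- Degree bound: if `F` has degree at most `d` in `y` and `F(x,y) = 0` exactly when
`x₂ = -(g(y) + x₁ r(y))`, then `g + a r` has degree at most `d` for each `a`. -/
theorem degree_bound {d : ℕ} {F : Poly 2} (hF : F.totalDegree ≤ d) {g r : A2}
    (h : ∀ (x v : Fin 2 → ℂ), ev F x v = 0 ↔ eval v g + x 0 * eval v r + x 1 = 0) (a : ℂ) :
    (g + C a * r).totalDegree ≤ d := by
  set q : A2 := g + C a * r with hq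
  set c : ℂ := 1 - eval 0 q with hc
  have h1 : Θ (C a) (-q) F = 0 := by
    apply MvPolynomial.funext
    intro v
    rw [eval_Θ, map_zero, h]
    simp [hq]
  have h2 := dvd_Θ (C a) (C c) (-q) F
  rw [h1, sub_zero, Θ_const] at h2
  have h3 : MvPolynomial.map (eval ![a, c]) F ≠ 0 := by
    intro h0
    have h4 : ev F ![a, c] 0 = 0 := by unfold ev; rw [h0, map_zero]
    rw [h] at h4
    simp only [Matrix.cons_val_zero, Matrix.cons_val_one] at h4
    rw [hc, hq] at h4
    simp at h4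
  obtain ⟨w, hw⟩ := h2
  have h5 : (MvPolynomial.map (eval ![a, c]) F).totalDegree ≤ d := by
    refine le_trans ?_ hF
    exact Finset.sup_mono (MvPolynomial.support_map_subset _ _)
  have hw0 : w ≠ 0 := by
    rintro rfl
    rw [mul_zero] at hw
    exact h3 hw
  have hq0 : C c - -q ≠ 0 := by
    intro h0
    rw [h0, zero_mul] at hw
    exact h3 hw
  rw [hw, MvPolynomial.totalDegree_mul_of_isDomain hq0 hw0] at h5
  have h6 : q = (C c - -q) - C c := by ring
  rw [h6]
  refine (MvPolynomial.totalDegree_sub _ _).trans ?_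
  rw [MvPolynomial.totalDegree_C, max_le_iff]
  exact ⟨by omega, by omega⟩

theorem totalDegree_pow_eq {p : A2} (hp : p ≠ 0) (m : ℕ) :
    (p ^ m).totalDegree = m * p.totalDegree := by
  induction m with
  | zero => simp
  | succ m ih =>
    rw [pow_succ, MvPolynomial.totalDegree_mul_of_isDomain (pow_ne_zero m hp) hp, ih]
    ring

/-- The hypersurface `y₂ + x₁ (y₁² + y₂^{2m}) + x₂ = 0`. -/
def Hm (m : ℕ) : Set ((Fin 2 → ℂ) × (Fin 2 → ℂ)) :=
  {p | p.2 1 + p.1 0 * (p.2 0 ^ 2 + p.2 1 ^ (2 * m)) + p.1 1 = 0}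

theorem not_hasForm (d : ℕ) : ¬ HasForm d (Hm (d + 1)) := by
  rintro ⟨σ, F, -, ⟨T, hT⟩, hF, hH⟩
  set m := d + 1 with hm
  have h1 : ∀ (x v : Fin 2 → ℂ), ev F x v = 0 ↔
      eval v (T 1) + x 0 * eval v (T 0 ^ 2 + T 1 ^ (2 * m)) + x 1 = 0 := by
    intro x v
    have h2 := Set.ext_iff.1 hH (x, σ.symm v)
    simp only [Hm, Set.mem_ofPred_eq, Equiv.apply_symm_apply] at h2
    rw [← h2, hT, hT]
    simp
  have hg : (T 1).totalDegree ≤ d := by
    have := degree_bound hF h1 0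
    simpa using this
  have hgr : (T 1 + C 1 * (T 0 ^ 2 + T 1 ^ (2 * m))).totalDegree ≤ d := degree_bound hF h1 1
  have hr : (T 0 ^ 2 + T 1 ^ (2 * m)).totalDegree ≤ d := by
    have h2 : T 0 ^ 2 + T 1 ^ (2 * m) = (T 1 + C 1 * (T 0 ^ 2 + T 1 ^ (2 * m))) - T 1 := by
      rw [C_1]; ring
    rw [h2]
    exact (MvPolynomial.totalDegree_sub _ _).trans (max_le hgr hg)
  -- factorization
  set P : A2 := T 0 - C Complex.I * T 1 ^ m with hP
  set Q : A2 := T 0 + C Complex.I * T 1 ^ m with hQ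
  have hI : (C Complex.I : A2) * C Complex.I = -1 := by
    rw [← C_mul, Complex.I_mul_I]; simp
  have hPQ : P * Q = T 0 ^ 2 + T 1 ^ (2 * m) := by
    rw [hP, hQ]
    linear_combination (-(T 1 ^ m) ^ 2) * hI
  have hsurj : ∀ a b : ℂ, ∃ v : Fin 2 → ℂ, eval v (T 0) = a ∧ eval v (T 1) = b := by
    intro a b
    refine ⟨σ ![a, b], ?_, ?_⟩
    · rw [← hT]; simp
    · rw [← hT]; simp
  have hm0 : m ≠ 0 := by omega
  have hP0 : P ≠ 0 := by
    intro h0
    obtain ⟨v, hv0, hv1⟩ := hsurj 1 0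
    have := congrArg (eval v) h0
    rw [hP, map_sub, map_mul, map_pow, hv0, hv1, zero_pow hm0] at this
    simp at this
  have hQ0 : Q ≠ 0 := by
    intro h0
    obtain ⟨v, hv0, hv1⟩ := hsurj 1 0
    have := congrArg (eval v) h0
    rw [hQ, map_add, map_mul, map_pow, hv0, hv1, zero_pow hm0] at this
    simp at this
  rw [← hPQ, MvPolynomial.totalDegree_mul_of_isDomain hP0 hQ0] at hr
  have hT0 : T 1 ≠ 0 := by
    intro h0
    obtain ⟨v, -, hv1⟩ := hsurj 0 1
    rw [h0, map_zero] at hv1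
    exact zero_ne_one hv1
  have hT1 : (T 1).totalDegree ≠ 0 := by
    intro h0
    rw [MvPolynomial.totalDegree_eq_zero_iff_eq_C] at h0
    obtain ⟨v, -, hv⟩ := hsurj 0 1
    obtain ⟨w, -, hw⟩ := hsurj 0 0
    rw [h0, eval_C] at hv hw
    rw [hv] at hw
    exact one_ne_zero hw
  have h4 : T 1 ^ m = C (-Complex.I / 2) * (Q - P) := by
    have h5 : Q - P = C (2 * Complex.I) * T 1 ^ m := by
      rw [hP, hQ, C_mul]
      have : (C (2 : ℂ) : A2) = 2 := map_ofNat C 2
      rw [this]; ring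
    rw [h5, ← mul_assoc, ← C_mul]
    have h6 : -Complex.I / 2 * (2 * Complex.I) = 1 := by
      linear_combination (-1 : ℂ) * Complex.I_mul_I
    rw [h6, C_1, one_mul]
  have h5 : (T 1 ^ m).totalDegree ≤ d := by
    rw [h4]
    refine (MvPolynomial.totalDegree_mul _ _).trans ?_
    rw [MvPolynomial.totalDegree_C, zero_add]
    refine (MvPolynomial.totalDegree_sub _ _).trans ?_
    exact max_le (by omega) (by omega)
  rw [totalDegree_pow_eq hT0] at h5
  have h6 : m * 1 ≤ m * (T 1).totalDegree := Nat.mul_le_mul_left m (Nat.one_le_iff_ne_zero.2 hT1)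
  omega

/-- the equation of `Hm` -/
noncomputable def F0 (m : ℕ) : Poly 2 :=
  X 1 + C (X 0) * (X 0 ^ 2 + X 1 ^ (2 * m)) + C (X 1)

theorem ev_F0 (m : ℕ) (u v : Fin 2 → ℂ) :
    ev (F0 m) u v = v 1 + u 0 * (v 0 ^ 2 + v 1 ^ (2 * m)) + u 1 := by
  simp [ev, F0]

theorem isHypersurface (m : ℕ) : IsHypersurface (Hm m) := by
  refine ⟨F0 m, ?_, ?_⟩
  · intro c hc
    have h1 : ev (F0 m) 0 ![0, 0] = c := by rw [hc]; simp [ev]
    have h2 : ev (F0 m) 0 ![0, 1] = c := by rw [hc]; simp [ev]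
    rw [ev_F0] at h1 h2
    simp at h1 h2
    rw [← h1] at h2
    exact one_ne_zero h2
  · ext p
    simp only [Set.mem_ofPred_eq, Hm, ev_F0]

/-- parametrization of `Hm` by `ℂ³` -/
noncomputable def Ψ (m : ℕ) : Poly 2 →+* MvPolynomial (Fin 3) ℂ :=
  MvPolynomial.eval₂Hom
    (MvPolynomial.aeval ![X 0, -(X 2 + X 0 * (X 1 ^ 2 + X 2 ^ (2 * m)))] :
      A2 →ₐ[ℂ] MvPolynomial (Fin 3) ℂ).toRingHom ![X 1, X 2]

theorem eval_Ψ (m : ℕ) (F : Poly 2) (w : Fin 3 → ℂ) :
    eval w (Ψ m F) = ev F ![w 0, -(w 2 + w 0 * (w 1 ^ 2 + w 2 ^ (2 * m)))] ![w 1, w 2] := by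
  have h : (eval w).comp (Ψ m) = (eval ![w 1, w 2]).comp
      (MvPolynomial.map (eval ![w 0, -(w 2 + w 0 * (w 1 ^ 2 + w 2 ^ (2 * m)))])) := by
    apply MvPolynomial.ringHom_ext
    · intro p
      have h2 : ((eval w).comp
          (MvPolynomial.aeval ![X 0, -(X 2 + X 0 * (X 1 ^ 2 + X 2 ^ (2 * m)))] :
            A2 →ₐ[ℂ] MvPolynomial (Fin 3) ℂ).toRingHom) =
          eval ![w 0, -(w 2 + w 0 * (w 1 ^ 2 + w 2 ^ (2 * m)))] := by
        apply MvPolynomial.ringHom_ext
        · intro c; simp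
        · intro i; fin_cases i <;> simp
      have h3 := DFunLike.congr_fun h2 p
      simpa [Ψ] using h3
    · intro i; fin_cases i <;> simp [Ψ]
  exact DFunLike.congr_fun h F

theorem isIrred (m : ℕ) : IsIrred (Hm m) := by
  refine ⟨⟨(0, 0), ?_⟩, ?_⟩
  · simp [Hm]
  · intro A B hAB
    have h1 : Ψ m A * Ψ m B = 0 := by
      apply MvPolynomial.funext
      intro w
      rw [map_mul, map_zero, eval_Ψ, eval_Ψ]
      have h2 := hAB (![w 0, -(w 2 + w 0 * (w 1 ^ 2 + w 2 ^ (2 * m)))], ![w 1, w 2]) (by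
        simp [Hm])
      rcases h2 with h2 | h2
      · simp only at h2; rw [h2, zero_mul]
      · simp only at h2; rw [h2, mul_zero]
    have key : ∀ A : Poly 2, Ψ m A = 0 → ∀ p ∈ Hm m, ev A p.1 p.2 = 0 := by
      rintro A hA ⟨u, v⟩ hp
      simp only [Hm, Set.mem_ofPred_eq] at hp
      have h2 := eval_Ψ m A ![u 0, v 0, v 1]
      rw [hA, map_zero] at h2
      simp only [Matrix.cons_val_zero, Matrix.cons_val_one, Matrix.cons_val] at h2
      have h3 : u = ![u 0, -(v 1 + u 0 * (v 0 ^ 2 + v 1 ^ (2 * m)))] := by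
        ext i
        fin_cases i
        · rfl
        · change u 1 = -(v 1 + u 0 * (v 0 ^ 2 + v 1 ^ (2 * m)))
          linear_combination hp
      have h4 : v = ![v 0, v 1] := by
        ext i; fin_cases i <;> rfl
      rw [← h3, ← h4] at h2
      exact h2.symm
    rcases mul_eq_zero.1 h1 with h | h
    · exact Or.inl (key A h)
    · exact Or.inr (key B h)

theorem gridFree (m : ℕ) : GridFree 2 3 (Hm m) := by
  rintro ⟨S, T, hS, hT, h⟩
  obtain ⟨u, u', huu, rfl⟩ := Finset.card_eq_two.1 hS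
  obtain ⟨v, v', v'', h12, h13, h23, rfl⟩ := Finset.card_eq_three.1 hT
  have hE : ∀ w ∈ ({v, v', v''} : Finset (Fin 2 → ℂ)),
      w 1 + u 0 * (w 0 ^ 2 + w 1 ^ (2 * m)) + u 1 = 0 := fun w hw =>
    h u (Finset.mem_insert_self _ _) w hw
  have hE' : ∀ w ∈ ({v, v', v''} : Finset (Fin 2 → ℂ)),
      w 1 + u' 0 * (w 0 ^ 2 + w 1 ^ (2 * m)) + u' 1 = 0 := fun w hw =>
    h u' (by simp) w hw
  have hv : v ∈ ({v, v', v''} : Finset (Fin 2 → ℂ)) := by simp
  have hv' : v' ∈ ({v, v', v''} : Finset (Fin 2 → ℂ)) := by simp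
  have hv'' : v'' ∈ ({v, v', v''} : Finset (Fin 2 → ℂ)) := by simp
  have hne : u 0 - u' 0 ≠ 0 := by
    intro h0
    apply huu
    have h1 := hE v hv
    have h2 := hE' v hv
    ext i
    fin_cases i
    · exact sub_eq_zero.1 h0
    · change u 1 = u' 1
      linear_combination h1 - h2 - (v 0 ^ 2 + v 1 ^ (2 * m)) * h0
  -- all three points have the same second coordinate and the same square of the first one
  have key : ∀ w w' : Fin 2 → ℂ, w ∈ ({v, v', v''} : Finset (Fin 2 → ℂ)) →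
      w' ∈ ({v, v', v''} : Finset (Fin 2 → ℂ)) → w 1 = w' 1 ∧ w 0 ^ 2 = w' 0 ^ 2 := by
    intro w w' hw hw'
    have a1 := hE w hw
    have a2 := hE' w hw
    have b1 := hE w' hw'
    have b2 := hE' w' hw'
    have h3 : (u 0 - u' 0) * ((w 0 ^ 2 + w 1 ^ (2 * m)) - (w' 0 ^ 2 + w' 1 ^ (2 * m))) = 0 := by
      linear_combination a1 - a2 - b1 + b2
    have h4 : (w 0 ^ 2 + w 1 ^ (2 * m)) - (w' 0 ^ 2 + w' 1 ^ (2 * m)) = 0 :=
      (mul_eq_zero.1 h3).resolve_left hne
    have h5 : w 1 = w' 1 := by linear_combination a1 - b1 - u 0 * h4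
    refine ⟨h5, ?_⟩
    rw [h5] at h4
    linear_combination h4
  have hext : ∀ w w' : Fin 2 → ℂ, w 1 = w' 1 → w 0 = w' 0 → w = w' := by
    intro w w' h1 h0
    ext i
    fin_cases i
    · exact h0
    · exact h1
  have k12 := key v v' hv hv'
  have k13 := key v v'' hv hv''
  have k23 := key v' v'' hv' hv''
  rcases sq_eq_sq_iff_eq_or_eq_neg.1 k12.2 with h | h
  · exact h12 (hext _ _ k12.1 h)
  · rcases sq_eq_sq_iff_eq_or_eq_neg.1 k13.2 with h' | h'
    · exact h13 (hext _ _ k13.1 h')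
    · apply h23 (hext _ _ k23.1 _)
      linear_combination h - h'

/-- **Negative answer to Q1**, with `(s,t) = (2,3)`: for every `d` there is an irreducible
`(2,3)`-grid-free affine hypersurface of `𝔸² × 𝔸²` that is not of the form `{F ∘ (id × σ) = 0}`
with `σ` a polynomial automorphism and `F` of degree at most `d` in `y`. -/
theorem result : ∀ d : ℕ, ∃ H : Set ((Fin 2 → ℂ) × (Fin 2 → ℂ)),
    IsHypersurface H ∧ IsIrred H ∧ GridFree 2 3 H ∧ ¬ HasForm d H :=
  fun d => ⟨Hm (d + 1), isHypersurface _, isIrred _, gridFree _, not_hasForm d⟩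

end Pool.Agent.Results.MP_a64928_ag.NoBoundedDegreeForm
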